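import Pool.Agent.Helper203.DS.TM

/-!
# MP_ff3f8e_an, Q1: spectra of endomorphisms of the disc algebra

`DA` is the disc algebra (closed subalgebra of `C(closedBall 0 1, ℂ)` of the functions holomorphic in
the open disc), `Z` its coordinate function, `phi T n` the function `T ^ n Z` (for a unital
endomorphism: the `n`-th iterate of the symbol `φ = T Z`).  For every endomorphism `T` of the disc
algebra the spectrum is a multiplicative semigroup, except possibly when the iterates of `φ` shrink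
uniformly to a boundary point `a` at which `φ` is not hyperbolic and has neither a third order Taylor
expansion nor a second order one with nonzero second coefficient; in that case the spectrum meets
every circle `|z| = ρ`, `0 ≤ ρ ≤ 1`.
-/

open Metric Set Filter Topology Pool.Agent.Helper203.DS

namespace Pool.Agent.Results.MP_ff3f8e_an.SemigroupTaylor

/-- Bounded linear operators on the disc algebra. -/
abbrev Op : Type := DA →L[ℂ] DA

/-- `T` is an endomorphism of the algebra `DA`. -/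
def Endo (T : Op) : Prop := ∀ f g : DA, T (f * g) = T f * T g

/-- The spectrum of `T` as a bounded operator. -/
def Spec (T : Op) : Set ℂ := spectrum ℂ T

/-- The value of `T ^ n Z` at the point `z` of the closed disc. -/
noncomputable def phi (T : Op) (n : ℕ) (z : Pt) : ℂ := ((T ^ n) Z).1 z

/-- `T ^ n Z` converges uniformly on the closed disc (that is, in norm) to the constant `a`. -/
def ConvTo (T : Op) (a : ℂ) : Prop :=
  ∀ ε : ℝ, 0 < ε → ∃ N : ℕ, ∀ n : ℕ, N ≤ n → ∀ z : Pt, ‖phi T n z - a‖ ≤ ε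

/-- The real part of `(a + z) / (a - z)` (for `|a| = 1`); its level sets are the horocycles at `a`. -/
noncomputable def horo (a z : ℂ) : ℝ := (1 - ‖z‖ ^ 2) / ‖a - z‖ ^ 2

/-- `φ = T Z` moves every point of the open disc into a horodisc at `a` that is smaller by the fixed
factor `β > 1`. -/
def HypAt (T : Op) (a : ℂ) : Prop :=
  ∃ β : ℝ, 1 < β ∧ ∀ z : Pt, ‖(z:ℂ)‖ < 1 → β * horo a z ≤ horo a (phi T 1 z)

/-- `φ = T Z` has a third order Taylor expansion at `a` (relative to the closed disc). -/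
def Taylor3 (T : Op) (a : ℂ) : Prop :=
  ∃ α β γ : ℂ, ∀ ε : ℝ, 0 < ε → ∃ δ : ℝ, 0 < δ ∧ ∀ z : Pt, ‖(z:ℂ) - a‖ < δ →
    ‖phi T 1 z - (a + α * ((z:ℂ) - a) + β * ((z:ℂ) - a) ^ 2 + γ * ((z:ℂ) - a) ^ 3)‖ ≤
      ε * ‖(z:ℂ) - a‖ ^ 3

/-- `φ = T Z` has a second order Taylor expansion at `a` with nonzero second coefficient. -/
def Taylor2 (T : Op) (a : ℂ) : Prop :=
  ∃ α β : ℂ, β ≠ 0 ∧ ∀ ε : ℝ, 0 < ε → ∃ δ : ℝ, 0 < δ ∧ ∀ z : Pt, ‖(z:ℂ) - a‖ < δ →
    ‖phi T 1 z - (a + α * ((z:ℂ) - a) + β * ((z:ℂ) - a) ^ 2)‖ ≤ ε * ‖(z:ℂ) - a‖ ^ 2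

/-- For some `a` of modulus one: `T Z` is not the constant `a`, `T ^ n Z` converges in norm to `a`,
and for some `N` every value of `T ^ N Z` other than `a` has modulus less than one. -/
def Shrink (T : Op) (a : ℂ) : Prop :=
  ‖a‖ = 1 ∧ (∃ z : Pt, phi T 1 z ≠ a) ∧ ConvTo T a ∧
    ∃ N : ℕ, ∀ z : Pt, phi T N z = a ∨ ‖phi T N z‖ < 1

/-- The case that is left out: shrinking, not hyperbolic, no Taylor expansion as above. -/
def Exc (T : Op) : Prop := ∃ a : ℂ, Shrink T a ∧ ¬ HypAt T a ∧ ¬ Taylor2 T a ∧ ¬ Taylor3 T a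

/-- The closure of the spiral `exp (- c b)`, `0 ≤ c`. -/
def Spiral (b : ℂ) : Set ℂ := {l : ℂ | l = 0 ∨ ∃ c : ℝ, 0 ≤ c ∧ l = Complex.exp (-(c * b))}

theorem phi_one (T : Op) (z : Pt) : phi T 1 z = (T Z).1 z := by
  unfold phi; rw [pow_one]

theorem conv_iff (T : Op) (a : ℂ) : ConvTo T a ↔ TM.ConvTo T a := by
  unfold ConvTo TM.ConvTo
  rw [Metric.tendsto_atTop]
  constructor
  · intro h ε hε
    obtain ⟨N, hN⟩ := h (ε / 2) (half_pos hε)
    refine ⟨N, fun n hn => ?_⟩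
    rw [dist_eq_norm]
    refine lt_of_le_of_lt (norm_le_of (half_pos hε).le fun z => ?_) (half_lt_self hε)
    rw [sub_apply, algMap_apply]
    exact hN n hn z
  · intro h ε hε
    obtain ⟨N, hN⟩ := h ε hε
    refine ⟨N, fun n hn z => ?_⟩
    have h1 := hN n hn
    rw [dist_eq_norm] at h1
    have h2 := norm_apply_le ((T ^ n) Z - algebraMap ℂ DA a) z
    rw [sub_apply, algMap_apply] at h2
    exact h2.trans h1.le

theorem shrink_iff (T : Op) (a : ℂ) : Shrink T a ↔ TM.Shrink T a := by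
  unfold Shrink TM.Shrink
  rw [conv_iff]
  refine and_congr_right fun _ => and_congr ?_ (and_congr_right fun _ => Iff.rfl)
  constructor
  · rintro ⟨z, hz⟩ h
    apply hz
    rw [phi_one, h, algMap_apply]
  · intro h
    by_contra hcon
    push Not at hcon
    refine h (da_ext fun z => ?_)
    rw [← phi_one, hcon z, algMap_apply]

theorem hyp_iff (T : Op) (a : ℂ) : HypAt T a ↔ TM.HypAt T a := by
  unfold HypAt TM.HypAt
  simp only [phi_one]
  rfl

theorem tay2_iff (T : Op) (a : ℂ) : Taylor2 T a ↔ TM.Taylor2 T a := by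
  unfold Taylor2 TM.Taylor2
  simp only [phi_one]

theorem tay3_iff (T : Op) (a : ℂ) : Taylor3 T a ↔ TM.Taylor3 T a := by
  unfold Taylor3 TM.Taylor3
  simp only [phi_one]

theorem exc_iff (T : Op) : Exc T ↔ TM.Exc T := by
  unfold Exc TM.Exc
  simp only [shrink_iff, hyp_iff, tay2_iff, tay3_iff]

/-- Main result. -/
theorem result (T : Op) (hT : Endo T) :
    (¬ Exc T → ∀ l ∈ Spec T, ∀ m ∈ Spec T, l * m ∈ Spec T) ∧
    (T ≠ 0 → ¬ IsUnit T → (∀ a : ℂ, ∃ z : Pt, phi T 1 z ≠ a) →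
      (∀ a : ℂ, ‖a‖ < 1 → ¬ ConvTo T a) → ¬ Exc T →
      Spec T = closedBall (0:ℂ) 1 ∨ ∃ b : ℂ, 0 < b.re ∧ Spec T = Spiral b) ∧
    ((∃ a : ℂ, Shrink T a) → ∀ ρ : ℝ, 0 ≤ ρ → ρ ≤ 1 → ∃ l ∈ Spec T, ‖l‖ = ρ) := by
  obtain ⟨h1, h2, h3⟩ := TM.main T hT
  simp only [exc_iff, shrink_iff, conv_iff]
  refine ⟨h1, fun hT0 hu hnc hin hex => h2 hT0 hu (fun a h => ?_) hin hex, h3⟩
  obtain ⟨z, hz⟩ := hnc a
  apply hz
  rw [phi_one, h, algMap_apply]

end Pool.Agent.Results.MP_ff3f8e_an.SemigroupTaylor
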